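import Pool.Agent.N655.H2.Split

/-! Local factors of an elliptic curve over a quadratic extension. -/

set_option autoImplicit false

namespace Pool.Agent.N655.H2

open Polynomial Finset NumberField IsDedekindDomain
open Pool.Agent.H921R2.TatePole (nm two_le_nm)
open Pool.Agent.H341R2.Sharp
open Pool.Agent.H341R2.EC
open Pool.Agent.H341R2 (finite_v card_v chi)
open Pool.Agent.R433.MD

section comb

theorem comb_one (Fb : Type) [Fintype Fb] (d : Fb → ℕ) (hd : ∀ t, 0 < d t)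
    (h : ∀ m, 0 < m → (∑ t, if d t ∣ m then d t else 0) = 2) (g : ℕ → ℂ) :
    ∏ t, g (d t) = g 1 ^ 2 := by
  let TT : Bool → Type := fun b => match b with
    | true => Fb
    | false => Fin 2
  let _ : ∀ b, Fintype (TT b) := fun b => match b with
    | true => (inferInstance : Fintype Fb)
    | false => (inferInstance : Fintype (Fin 2))
  let dd : ∀ b, TT b → ℕ := fun b => match b with
    | true => d
    | false => fun _ => 1
  have h1 := comb TT dd (by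
    rintro (_ | _) t
    · exact one_pos
    · exact hd t) (fun b => if b then 1 else 0) (fun b => if b then 0 else 1) (by
      intro m hm
      rw [Fintype.sum_bool, Fintype.sum_bool]
      have e1 : (∑ t, if dd true t ∣ m then dd true t else 0) = 2 := h m hm
      have e2 : (∑ t, if dd false t ∣ m then dd false t else 0) = 2 := by
        change (∑ t : Fin 2, if 1 ∣ m then 1 else 0) = 2
        simp
      rw [e1, e2]
      simp) g
  rw [Fintype.prod_bool, Fintype.prod_bool] at h1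
  have e3 : ∏ t, g (dd false t) = g 1 ^ 2 := by
    change ∏ t : Fin 2, g 1 = g 1 ^ 2
    simp
  have e4 : ∏ t, g (dd true t) = ∏ t, g (d t) := rfl
  rw [e3, e4] at h1
  simpa using h1

theorem comb_two (Fb : Type) [Fintype Fb] (d : Fb → ℕ) (hd : ∀ t, 0 < d t)
    (h : ∀ m, 0 < m → (∑ t, if d t ∣ m then d t else 0) = if 2 ∣ m then 2 else 0) (g : ℕ → ℂ) :
    ∏ t, g (d t) = g 2 := by
  let TT : Bool → Type := fun b => match b with
    | true => Fb
    | false => Unit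
  let _ : ∀ b, Fintype (TT b) := fun b => match b with
    | true => (inferInstance : Fintype Fb)
    | false => (inferInstance : Fintype Unit)
  let dd : ∀ b, TT b → ℕ := fun b => match b with
    | true => d
    | false => fun _ => 2
  have h1 := comb TT dd (by
    rintro (_ | _) t
    · exact two_pos
    · exact hd t) (fun b => if b then 1 else 0) (fun b => if b then 0 else 1) (by
      intro m hm
      rw [Fintype.sum_bool, Fintype.sum_bool]
      have e1 : (∑ t, if dd true t ∣ m then dd true t else 0) = if 2 ∣ m then 2 else 0 := h m hm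
      have e2 : (∑ t, if dd false t ∣ m then dd false t else 0) = if 2 ∣ m then 2 else 0 := by
        change (∑ t : Unit, if 2 ∣ m then 2 else 0) = _
        simp
      rw [e1, e2]
      simp) g
  rw [Fintype.prod_bool, Fintype.prod_bool] at h1
  have e3 : ∏ t, g (dd false t) = g 2 := by
    change ∏ t : Unit, g 2 = g 2
    simp
  have e4 : ∏ t, g (dd true t) = ∏ t, g (d t) := rfl
  rw [e3, e4] at h1
  simpa using h1

end comb

section
variable {K F : Type} [Field K] [NumberField K] [Field F] [NumberField F] [Algebra K F]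

/-- the characteristic of the residue field -/
theorem char_ne_two {v : HeightOneSpectrum (𝓞 K)} (hv6 : (6 : 𝓞 K) ∉ v.asIdeal) :
    ringChar (𝓞 K ⧸ v.asIdeal) ≠ 2 := by
  have h6' : (6 : 𝓞 K ⧸ v.asIdeal) ≠ 0 := by
    have := mk_ne hv6
    rwa [map_ofNat] at this
  intro h
  apply h6'
  have h3 := ringChar.Nat.cast_ringChar (R := 𝓞 K ⧸ v.asIdeal)
  rw [h] at h3
  have h4 : (6 : 𝓞 K ⧸ v.asIdeal) = 3 * ((2 : ℕ) : 𝓞 K ⧸ v.asIdeal) := by norm_num
  rw [h4, h3, mul_zero]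

/-- the sums attached to `v` -/
noncomputable def Tv (P Q : 𝓞 K) (v : HeightOneSpectrum (𝓞 K)) (n : ℕ) : ℤ :=
  T (cub (Ideal.Quotient.mk v.asIdeal P) (Ideal.Quotient.mk v.asIdeal Q)) n

theorem csumv_eq (P Q : 𝓞 K) {v : HeightOneSpectrum (𝓞 K)} (hv6 : (6 : 𝓞 K) ∉ v.asIdeal) :
    csumv P Q v = Tv P Q v 1 := by
  have h1 := T_eq_sum (F := 𝓞 K ⧸ v.asIdeal) (E := 𝓞 K ⧸ v.asIdeal) (char_ne_two hv6)
    (cub (Ideal.Quotient.mk v.asIdeal P) (Ideal.Quotient.mk v.asIdeal Q))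
  rw [Module.finrank_self] at h1
  unfold Tv
  rw [h1]
  rfl

theorem csumv_fib (P Q : 𝓞 K) {v : HeightOneSpectrum (𝓞 K)} (hv6 : (6 : 𝓞 K) ∉ v.asIdeal)
    (w : Fib F v) :
    csumv (algebraMap (𝓞 K) (𝓞 F) P) (algebraMap (𝓞 K) (𝓞 F) Q) w.1 = Tv P Q v (fdeg w) := by
  have h1 := T_eq_sum (F := 𝓞 K ⧸ v.asIdeal) (E := 𝓞 F ⧸ w.1.asIdeal) (char_ne_two hv6)
    (cub (Ideal.Quotient.mk v.asIdeal P) (Ideal.Quotient.mk v.asIdeal Q))
  unfold Tv fdeg
  rw [h1]
  unfold csumv csum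
  refine Finset.sum_congr rfl fun x _ => ?_
  congr 1
  rw [cub_eval]
  unfold cub
  simp only [map_sub, map_mul, map_pow, aeval_X, aeval_C, map_ofNat, algFib_mk]

theorem aff_one {E : WeierstrassCurve K} {l P Q : 𝓞 K} (hl : l ≠ 0)
    (hP : (P : K) = (l : K) ^ 4 * E.c₄) (hQ : (Q : K) = (l : K) ^ 6 * E.c₆)
    {v : HeightOneSpectrum (𝓞 K)} {V : WeierstrassCurve (𝓞 K)} (hV : IsMinAt E v V)
    (h6 : (6 : 𝓞 K) ∉ v.asIdeal) (hD : P ^ 3 - Q ^ 2 ∉ v.asIdeal) :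
    V.Δ ∉ v.asIdeal ∧ (aff (red v V) : ℤ) = nm v + csumv P Q v := by
  have h1 : IsMinAt (twist E ((1 : 𝓞 K) : K)) v V := by
    have e1 : ((1 : 𝓞 K) : K) = 1 := map_one (algebraMap (𝓞 K) K)
    rw [e1]
    exact isMinAt_one E v _ hV
  have h2 := count_good hl hP hQ h1 h6 (fun h => v.isPrime.ne_top
    (v.asIdeal.eq_top_iff_one.2 h)) hD
  have h3 : chi (1 : 𝓞 K) v = 1 := by
    unfold chi
    rw [map_one, map_one]
  rw [h3, one_mul] at h2
  exact h2

theorem aff_fib {E : WeierstrassCurve K} {l P Q : 𝓞 K} (hl : l ≠ 0)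
    (hP : (P : K) = (l : K) ^ 4 * E.c₄) (hQ : (Q : K) = (l : K) ^ 6 * E.c₆)
    {v : HeightOneSpectrum (𝓞 K)} (w : Fib F v) {V : WeierstrassCurve (𝓞 F)}
    (hV : IsMinAt (E.map (algebraMap K F)) w.1 V)
    (h6 : (6 : 𝓞 K) ∉ v.asIdeal) (hD : P ^ 3 - Q ^ 2 ∉ v.asIdeal) :
    V.Δ ∉ w.1.asIdeal ∧ (aff (red w.1 V) : ℤ) = nm w.1 + Tv P Q v (fdeg w) := by
  have hmem : ∀ x : 𝓞 K, x ∉ v.asIdeal → algebraMap (𝓞 K) (𝓞 F) x ∉ w.1.asIdeal := by
    intro x hx h
    apply hx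
    rw [fib_le w]
    exact h
  have hc : ∀ x : 𝓞 K, ((algebraMap (𝓞 K) (𝓞 F) x : 𝓞 F) : F) = algebraMap K F (x : K) :=
    fun x => rfl
  have h1 := aff_one (K := F) (E := E.map (algebraMap K F)) (l := algebraMap (𝓞 K) (𝓞 F) l)
    (P := algebraMap (𝓞 K) (𝓞 F) P) (Q := algebraMap (𝓞 K) (𝓞 F) Q) (by
      intro h
      rw [map_eq_zero_iff _ (RingOfIntegers.algebraMap.injective K F)] at h
      exact hl h) (by rw [hc, hc, hP, WeierstrassCurve.map_c₄, map_mul, map_pow])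
      (by rw [hc, hc, hQ, WeierstrassCurve.map_c₆, map_mul, map_pow]) hV (by
        have := hmem 6 h6
        rwa [map_ofNat] at this) (by
        have := hmem _ hD
        rwa [map_sub, map_pow, map_pow] at this)
  rw [csumv_fib P Q h6 w] at h1
  exact h1

theorem Tv_two {P Q : 𝓞 K} {v : HeightOneSpectrum (𝓞 K)} (h6 : (6 : 𝓞 K) ∉ v.asIdeal)
    (hD : P ^ 3 - Q ^ 2 ∉ v.asIdeal) : Tv P Q v 2 = 2 * (nm v : ℤ) - Tv P Q v 1 ^ 2 := by
  have h6' : (6 : 𝓞 K ⧸ v.asIdeal) ≠ 0 := by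
    have := mk_ne h6
    rwa [map_ofNat] at this
  have h := T_two h6' (c := Ideal.Quotient.mk v.asIdeal P)
    (c' := Ideal.Quotient.mk v.asIdeal Q) (by
      have := mk_ne hD
      rwa [map_sub, map_pow, map_pow] at this)
  rw [card_v] at h
  exact h

/-- the local factors agree -/
theorem local_eq {E : WeierstrassCurve K} {l P Q : 𝓞 K} (hl : l ≠ 0)
    (hP : (P : K) = (l : K) ^ 4 * E.c₄) (hQ : (Q : K) = (l : K) ^ 6 * E.c₆) {c : 𝓞 K}
    {v : HeightOneSpectrum (𝓞 K)}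
    {V₀ V₂ : HeightOneSpectrum (𝓞 K) → WeierstrassCurve (𝓞 K)}
    {V₁ : HeightOneSpectrum (𝓞 F) → WeierstrassCurve (𝓞 F)}
    (hV₀ : IsMinAt E v (V₀ v)) (hV₁ : ∀ w, IsMinAt (E.map (algebraMap K F)) w (V₁ w))
    (hV₂ : IsMinAt (twist E (c : K)) v (V₂ v))
    (h6 : (6 : 𝓞 K) ∉ v.asIdeal) (hD : P ^ 3 - Q ^ 2 ∉ v.asIdeal) (hcv : c ∉ v.asIdeal)
    (hsplit : ∀ m : ℕ, 0 < m →
      ((∑ w : Fib F v, if fdeg w ∣ m then fdeg w else 0 : ℕ) : ℤ) = 1 + chi c v ^ m) (s : ℂ) :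
    ∏ w : Fib F v, lf V₁ s w.1 = lf V₀ s v * lf V₂ s v := by
  obtain ⟨hΔ0, h0⟩ := aff_one hl hP hQ hV₀ h6 hD
  obtain ⟨hΔ2, h2⟩ := count_good hl hP hQ hV₂ h6 hcv hD
  rw [csumv_eq P Q h6] at h0 h2
  let G : ℕ → ℂ := fun n => 1 + (Tv P Q v n : ℂ) * ((nm v ^ n : ℕ) : ℂ) ^ (-s) +
    ((nm v ^ n : ℕ) : ℂ) ^ (1 - 2 * s)
  have hG : ∀ w : Fib F v, lf V₁ s w.1 = G (fdeg w) := by
    intro w
    obtain ⟨hΔ, h⟩ := aff_fib hl hP hQ w (hV₁ w.1) h6 hD
    unfold lf trc dlt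
    rw [if_neg hΔ, h, nm_fib w]
    simp only [G]
    push_cast
    ring
  have hl0 : lf V₀ s v = 1 + (Tv P Q v 1 : ℂ) * ((nm v : ℕ) : ℂ) ^ (-s) +
      ((nm v : ℕ) : ℂ) ^ (1 - 2 * s) := by
    unfold lf trc dlt
    rw [if_neg hΔ0, h0]
    push_cast
    ring
  have hl2 : lf V₂ s v = 1 + (chi c v : ℂ) * (Tv P Q v 1 : ℂ) * ((nm v : ℕ) : ℂ) ^ (-s) +
      ((nm v : ℕ) : ℂ) ^ (1 - 2 * s) := by
    unfold lf trc dlt
    rw [if_neg hΔ2, h2]
    push_cast
    ring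
  rw [Finset.prod_congr rfl fun w _ => hG w, hl0, hl2]
  have hε : chi c v = 1 ∨ chi c v = -1 := by
    unfold chi
    exact quadraticChar_dichotomy (mk_ne hcv)
  rcases hε with hε | hε
  · rw [comb_one (Fib F v) fdeg fdeg_pos (fun m hm => by
      have := hsplit m hm
      rw [hε, one_pow] at this
      exact_mod_cast this) G, hε]
    simp only [G, pow_one]
    push_cast
    ring
  · rw [comb_two (Fib F v) fdeg fdeg_pos (fun m hm => by
      have := hsplit m hm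
      rw [hε] at this
      split_ifs with h2m
      · rw [(even_iff_two_dvd.2 h2m).neg_one_pow] at this
        exact_mod_cast this
      · have h3 : Odd m := by
          rw [← Nat.not_even_iff_odd, even_iff_two_dvd]
          exact h2m
        rw [h3.neg_one_pow] at this
        have h4 : ((∑ w : Fib F v, if fdeg w ∣ m then fdeg w else 0 : ℕ) : ℤ) = 0 := by
          rw [this]; norm_num
        exact_mod_cast h4) G, hε]
    have hq : ((nm v : ℕ) : ℂ) ≠ 0 := by exact_mod_cast (nm_pos v).ne'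
    have e1 : ((nm v ^ 2 : ℕ) : ℂ) ^ (-s) = (((nm v : ℕ) : ℂ) ^ (-s)) ^ 2 := by
      rw [sq, Nat.cast_mul, Complex.natCast_mul_natCast_cpow, sq]
    have e2 : ((nm v : ℕ) : ℂ) ^ (1 - 2 * s) = (nm v : ℂ) * (((nm v : ℕ) : ℂ) ^ (-s)) ^ 2 := by
      have : (1 : ℂ) - 2 * s = 1 + (-s) + (-s) := by ring
      rw [this, Complex.cpow_add _ _ hq, Complex.cpow_add _ _ hq, Complex.cpow_one]
      ring
    have e3 : ((nm v ^ 2 : ℕ) : ℂ) ^ (1 - 2 * s) = (((nm v : ℕ) : ℂ) ^ (1 - 2 * s)) ^ 2 := by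
      rw [sq, Nat.cast_mul, Complex.natCast_mul_natCast_cpow, sq]
    simp only [G]
    rw [e1, e3, e2, Tv_two h6 hD]
    push_cast
    ring

end

end Pool.Agent.N655.H2
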