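import Pool.Agent.H341R2.FieldSum
import Pool.Agent.H341R2.NF.ECCount

/-! The sum of the quadratic characters of the values of a cubic at quadratic polynomials. -/

set_option autoImplicit false

namespace Pool.Agent.N655.H2

open Polynomial Finset
open Pool.Agent.H341R2.Sharp
open Pool.Agent.H341R2.EC

section charsum

variable {F : Type*} [Field F] [Fintype F] [DecidableEq F]

theorem sum_sq_sub (hF : ringChar F ≠ 2) {c : F} (hc : c ≠ 0) :
    ∑ x : F, quadraticChar F (x ^ 2 - c) = -1 := by
  have h1 : ∑ x : F, quadraticChar F (x ^ 2 - c)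
      = ∑ y : F, (quadraticChar F y + 1) * quadraticChar F (y - c) := by
    rw [← Finset.sum_fiberwise (s := Finset.univ) (g := fun x : F => x ^ 2)]
    refine Finset.sum_congr rfl fun y _ => ?_
    rw [← quadraticChar_card_sqrts hF y]
    rw [Finset.sum_congr (g := fun _ => quadraticChar F (y - c)) rfl]
    · rw [Finset.sum_const, nsmul_eq_mul]
      congr 2
      have : ({x : F | x ^ 2 = y} : Set F).toFinset = Finset.univ.filter (fun x : F => x ^ 2 = y) := by
        ext x; simp
      rw [this]
    · intro x hx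
      simp only [Finset.mem_filter, Finset.mem_univ, true_and] at hx
      rw [hx]
  rw [h1]
  simp only [add_mul, one_mul, Finset.sum_add_distrib]
  have h2 : ∑ y : F, quadraticChar F (y - c) = 0 := by
    rw [← quadraticChar_sum_zero hF]
    exact Equiv.sum_comp (Equiv.subRight c) (fun y => quadraticChar F y)
  have h3 : ∑ y : F, quadraticChar F y * quadraticChar F (y - c) = -1 := by
    rw [← Equiv.sum_comp (Equiv.mulLeft₀ c hc)]
    have hneg : quadraticChar F (-1) * quadraticChar F (-1) = 1 := by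
      rw [← map_mul]; simp
    have h4 : ∀ z : F, quadraticChar F (Equiv.mulLeft₀ c hc z) * quadraticChar F (Equiv.mulLeft₀ c hc z - c)
        = quadraticChar F (-1) * (quadraticChar F z * quadraticChar F (1 - z)) := by
      intro z
      simp only [Equiv.mulLeft₀_apply]
      have h5 : quadraticChar F c * quadraticChar F c = 1 := by
        rw [← sq]; exact quadraticChar_sq_one hc
      have h6 : c * z - c = c * (-1 * (1 - z)) := by ring
      rw [h6, map_mul, map_mul, map_mul]
      linear_combination (quadraticChar F z * quadraticChar F (-1) * quadraticChar F (1 - z)) * h5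
    simp only [h4]
    rw [← Finset.mul_sum]
    have h7 := jacobiSum_nontrivial_inv (quadraticChar_ne_one hF)
    rw [(quadraticChar_isQuadratic F).inv] at h7
    unfold jacobiSum at h7
    rw [h7]
    linear_combination (-1) * hneg
  rw [h2, h3]
  norm_num

theorem sum_quadratic (hF : ringChar F ≠ 2) (b c : F) (hΔ : b ^ 2 - 4 * c ≠ 0) :
    ∑ x : F, quadraticChar F (x ^ 2 + b * x + c) = -1 := by
  have h2 : (2 : F) ≠ 0 := Ring.two_ne_zero hF
  have h1 : ∀ x : F, quadraticChar F (x ^ 2 + b * x + c) =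
      quadraticChar F ((2 * x + b) ^ 2 - (b ^ 2 - 4 * c)) := by
    intro x
    have h3 : (2 * x + b) ^ 2 - (b ^ 2 - 4 * c) = 2 ^ 2 * (x ^ 2 + b * x + c) := by ring
    have h6 : quadraticChar F (2 ^ 2) = 1 := quadraticChar_sq_one' h2
    rw [h3, map_mul, h6, one_mul]
  rw [Finset.sum_congr rfl fun x _ => h1 x]
  have h4 : ∑ x : F, quadraticChar F ((2 * x + b) ^ 2 - (b ^ 2 - 4 * c)) =
      ∑ y : F, quadraticChar F ((y + b) ^ 2 - (b ^ 2 - 4 * c)) :=
    Fintype.sum_equiv (Equiv.mulLeft₀ 2 h2) _ _ (fun x => rfl)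
  rw [h4, ← sum_sq_sub hF hΔ]
  exact Equiv.sum_comp (Equiv.addRight b) (fun y => quadraticChar F (y ^ 2 - (b ^ 2 - 4 * c)))

end charsum

/-! ### The cubic -/

section cubic

variable {F : Type*} [Field F] [Fintype F] [DecidableEq F]

/-- the value of the resultant -/
def NN (a b β u : F) : F :=
  -u ^ 3 + (3 * β ^ 2 + a) * u ^ 2 - 3 * β * (β ^ 3 + a * β + b) * u + (β ^ 3 + a * β + b) ^ 2

theorem sum_NN_root (hF : ringChar F ≠ 2) (a b β : F) (h : β ^ 3 + a * β + b = 0) :
    ∑ u : F, quadraticChar F (NN a b β u) = - quadraticChar F (3 * β ^ 2 + a) := by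
  have h1 : ∀ u : F, quadraticChar F (NN a b β u) =
      quadraticChar F (3 * β ^ 2 + a - u) - if u = 0 then quadraticChar F (3 * β ^ 2 + a) else 0 := by
    intro u
    have e : NN a b β u = u ^ 2 * (3 * β ^ 2 + a - u) := by
      unfold NN
      rw [h]
      ring
    rw [e]
    by_cases hu : u = 0
    · rw [if_pos hu, hu]
      simp
    · rw [if_neg hu, map_mul, quadraticChar_sq_one' hu]
      ring
  rw [sum_congr rfl fun u _ => h1 u, sum_sub_distrib, sum_ite_eq' univ (0 : F)]
  have h2 : ∑ u : F, quadraticChar F (3 * β ^ 2 + a - u) = 0 := by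
    rw [← quadraticChar_sum_zero hF]
    exact Equiv.sum_comp (Equiv.subLeft (3 * β ^ 2 + a)) (fun y => quadraticChar F y)
  rw [h2]
  simp

/-- the terms after the substitution -/
def WW (a b β w : F) : F := -w * ((β - w) ^ 3 + a * (β - w) + b)

theorem sum_NN_not_root (a b β : F) (h : β ^ 3 + a * β + b ≠ 0) :
    ∑ u : F, quadraticChar F (NN a b β u) = 1 + ∑ w : F, quadraticChar F (WW a b β w) := by
  set f := β ^ 3 + a * β + b with hf
  have h0 : NN a b β 0 = f ^ 2 := by unfold NN; ring
  rw [← Finset.add_sum_erase univ _ (mem_univ (0 : F)), h0, quadraticChar_sq_one' h]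
  rw [← Finset.add_sum_erase univ (fun w => quadraticChar F (WW a b β w)) (mem_univ (0 : F))]
  have h1 : WW a b β 0 = 0 := by unfold WW; ring
  rw [h1, quadraticChar_zero, zero_add]
  congr 1
  refine sum_bij' (fun u _ => f / u) (fun w _ => f / w) ?_ ?_ ?_ ?_ ?_
  · intro u hu
    rw [mem_erase] at hu ⊢
    exact ⟨div_ne_zero h hu.1, mem_univ _⟩
  · intro u hu
    rw [mem_erase] at hu ⊢
    exact ⟨div_ne_zero h hu.1, mem_univ _⟩
  · intro u hu
    rw [mem_erase] at hu
    field_simp
  · intro u hu
    rw [mem_erase] at hu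
    field_simp
  · intro u hu
    rw [mem_erase] at hu
    have hu0 := hu.1
    have e : NN a b β u * (f / u) ^ 2 = u ^ 2 * WW a b β (f / u) := by
      unfold NN WW
      rw [← hf]
      field_simp
      rw [hf]
      ring
    have e2 := congrArg (quadraticChar F) e
    rw [map_mul, map_mul, quadraticChar_sq_one' (div_ne_zero h hu0), quadraticChar_sq_one' hu0,
      mul_one, one_mul] at e2
    exact e2

theorem sum_WW_root (hF : ringChar F ≠ 2) (a b β : F) (h : β ^ 3 + a * β + b = 0)
    (hd : 9 * β ^ 2 - 4 * (3 * β ^ 2 + a) ≠ 0) :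
    ∑ w : F, quadraticChar F (WW a b β w) = -1 - quadraticChar F (3 * β ^ 2 + a) := by
  have h1 : ∀ w : F, quadraticChar F (WW a b β w) =
      quadraticChar F (w ^ 2 + (-3 * β) * w + (3 * β ^ 2 + a)) -
        if w = 0 then quadraticChar F (3 * β ^ 2 + a) else 0 := by
    intro w
    have e : WW a b β w = w ^ 2 * (w ^ 2 + (-3 * β) * w + (3 * β ^ 2 + a)) := by
      unfold WW
      linear_combination (-w) * h
    rw [e]
    by_cases hw : w = 0
    · rw [if_pos hw, hw]
      simp
    · rw [if_neg hw, map_mul, quadraticChar_sq_one' hw]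
      ring
  rw [sum_congr rfl fun u _ => h1 u, sum_sub_distrib, sum_ite_eq' univ (0 : F),
    sum_quadratic hF _ _ (by
      have e : (-3 * β) ^ 2 - 4 * (3 * β ^ 2 + a) = 9 * β ^ 2 - 4 * (3 * β ^ 2 + a) := by ring
      rw [e]
      exact hd)]
  simp

theorem sum_WW (hF : ringChar F ≠ 2) (a b : F) :
    ∑ β : F, ∑ w : F, quadraticChar F (WW a b β w) = 0 := by
  rw [sum_comm]
  have h1 : ∀ w : F, ∑ β : F, quadraticChar F (WW a b β w) =
      quadraticChar F (-w) * ∑ y : F, quadraticChar F (y ^ 3 + a * y + b) := by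
    intro w
    rw [mul_sum]
    have h2 : ∀ β : F, quadraticChar F (WW a b β w) =
        quadraticChar F (-w) * quadraticChar F ((β - w) ^ 3 + a * (β - w) + b) := fun β => by
      unfold WW
      rw [map_mul]
    rw [sum_congr rfl fun β _ => h2 β]
    exact Equiv.sum_comp (Equiv.subRight w)
      (fun y => quadraticChar F (-w) * quadraticChar F (y ^ 3 + a * y + b))
  rw [sum_congr rfl fun w _ => h1 w, ← sum_mul]
  have h3 : ∑ w : F, quadraticChar F (-w) = 0 := by
    rw [← quadraticChar_sum_zero hF]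
    exact Equiv.sum_comp (Equiv.neg F) (fun y => quadraticChar F y)
  rw [h3, zero_mul]

/-- **The main sum.** -/
theorem sum_NN (hF : ringChar F ≠ 2) (a b : F)
    (hd : ∀ β : F, β ^ 3 + a * β + b = 0 → 9 * β ^ 2 - 4 * (3 * β ^ 2 + a) ≠ 0) :
    ∑ β : F, ∑ u : F, quadraticChar F (NN a b β u) = Fintype.card F := by
  have h1 : ∀ β : F, ∑ u : F, quadraticChar F (NN a b β u) =
      1 + ∑ w : F, quadraticChar F (WW a b β w) := by
    intro β
    by_cases h : β ^ 3 + a * β + b = 0
    · rw [sum_NN_root hF a b β h, sum_WW_root hF a b β h (hd β h)]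
      ring
    · exact sum_NN_not_root a b β h
  rw [sum_congr rfl fun β _ => h1 β, sum_add_distrib, sum_WW hF]
  simp

end cubic

end Pool.Agent.N655.H2
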