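import Pool.Agent.N655.H2.Quad

/-! The coefficient of degree two of the `L`-polynomial of a cubic. -/

set_option autoImplicit false

namespace Pool.Agent.N655.H2

open Polynomial Finset
open Pool.Agent.H341R2.Sharp
open Pool.Agent.H341R2.EC

/-- the quadratic polynomial -/
noncomputable def qd {F : Type*} [Field F] (β γ : F) : F[X] := X ^ 2 + C β * X + C γ

theorem qd_natDegree {F : Type*} [Field F] (β γ : F) : (qd β γ).natDegree = 2 := by
  unfold qd
  compute_degree!

theorem qd_monic {F : Type*} [Field F] (β γ : F) : (qd β γ).Monic := by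
  unfold qd
  monicity!

theorem res_split {F : Type*} [Field F] (f : F[X]) (r s : F) (n : ℕ) (hn : f.natDegree ≤ n) :
    resultant ((X - C r) * (X - C s)) f 2 n = eval r f * eval s f := by
  have h1 := resultant_mul_left (X - C r) (X - C s) f n hn
  rw [natDegree_X_sub_C, natDegree_X_sub_C] at h1
  have h2 := resultant_X_sub_C_pow_left r f 1 n hn
  have h3 := resultant_X_sub_C_pow_left s f 1 n hn
  rw [pow_one, pow_one] at h2 h3
  rw [h2, h3] at h1
  exact h1

theorem res_qd {F : Type*} [Field F] (c c' β γ : F) :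
    resultant (qd β γ) (cub c c') 2 3 = NN (-27 * c) (-54 * c') β (β ^ 2 - γ + (-27 * c)) := by
  classical
  let Ω := AlgebraicClosure F
  apply (algebraMap F Ω).injective
  rw [← resultant_map_map]
  obtain ⟨r, hr⟩ := IsAlgClosed.exists_root (qd (algebraMap F Ω β) (algebraMap F Ω γ)) (by
    apply degree_ne_of_natDegree_ne
    rw [qd_natDegree]
    norm_num)
  set β' := algebraMap F Ω β with hβ
  set γ' := algebraMap F Ω γ with hγ
  set k := algebraMap F Ω c with hk
  set k' := algebraMap F Ω c' with hk'
  have hr' : r ^ 2 + β' * r + γ' = 0 := by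
    have := hr
    rw [IsRoot.def] at this
    simpa [qd] using this
  have e1 : (qd β γ).map (algebraMap F Ω) = (X - C r) * (X - C (-β' - r)) := by
    have e2 : (qd β γ).map (algebraMap F Ω) = qd β' γ' := by simp [qd, hβ, hγ]
    rw [e2]
    have e3 : γ' = -(r ^ 2 + β' * r) := by linear_combination hr'
    unfold qd
    rw [e3]
    simp only [map_sub, map_neg, map_add, map_mul, map_pow]
    ring
  have e4 : (cub c c').map (algebraMap F Ω) = cub k k' := by
    simp only [cub, hk, hk', Polynomial.map_sub, Polynomial.map_mul, Polynomial.map_pow, map_X,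
      map_C, map_mul, map_ofNat, Polynomial.map_ofNat]
  rw [e1, e4, res_split _ _ _ _ (cub_natDegree k k').le, cub_eval, cub_eval]
  unfold NN
  simp only [map_add, map_sub, map_neg, map_mul, map_pow, map_ofNat, ← hβ, ← hγ, ← hk, ← hk']
  have e3 : γ' = -(r ^ 2 + β' * r) := by linear_combination hr'
  rw [e3]
  ring

section
variable {F : Type*} [Field F] [Fintype F] [DecidableEq F]

theorem A_two_eq (c c' : F) :
    A (cub c c') 2 = ∑ β : F, ∑ u : F, quadraticChar F (NN (-27 * c) (-54 * c') β u) := by
  unfold A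
  rw [← Fintype.sum_prod_type' (f := fun β u => quadraticChar F (NN (-27 * c) (-54 * c') β u))]
  symm
  refine sum_bij' (fun p _ => qd p.1 (p.1 ^ 2 + (-27 * c) - p.2))
    (fun h _ => (h.coeff 1, h.coeff 1 ^ 2 + (-27 * c) - h.coeff 0)) ?_ ?_ ?_ ?_ ?_
  · intro p _
    rw [mem_Mon]
    exact ⟨qd_monic _ _, qd_natDegree _ _⟩
  · intro h _
    exact mem_univ _
  · intro p _
    have h1 : ∀ β γ : F, (qd β γ).coeff 1 = β := by
      intro β γ
      simp [qd, coeff_C]
    have h0 : ∀ β γ : F, (qd β γ).coeff 0 = γ := by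
      intro β γ
      simp [qd]
    simp only [h1, h0]
    apply Prod.ext
    · rfl
    · simp only
      ring
  · intro h hh
    rw [mem_Mon] at hh
    simp only
    have h2 : h.coeff 2 = 1 := by
      have := hh.1.coeff_natDegree
      rwa [hh.2] at this
    have h3 := h.as_sum_range_C_mul_X_pow
    rw [hh.2] at h3
    rw [sum_range_succ, sum_range_succ, sum_range_one, h2] at h3
    conv_rhs => rw [h3]
    unfold qd
    have e : h.coeff 1 ^ 2 + -27 * c - (h.coeff 1 ^ 2 + -27 * c - h.coeff 0) = h.coeff 0 := by ring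
    rw [e]
    simp only [map_one, one_mul, pow_zero, mul_one, pow_one]
    ring
  · intro p _
    unfold lam
    rw [qd_natDegree, cub_natDegree, res_qd]
    congr 2
    ring

theorem A_two (h6 : (6 : F) ≠ 0) {c c' : F} (h : c ^ 3 - c' ^ 2 ≠ 0) :
    A (cub c c') 2 = Fintype.card F := by
  have h2 : (2 : F) ≠ 0 := by
    intro h; apply h6
    have : (6 : F) = 3 * 2 := by norm_num
    rw [this, h, mul_zero]
  have h3 : (3 : F) ≠ 0 := by
    intro h; apply h6
    have : (6 : F) = 2 * 3 := by norm_num
    rw [this, h, mul_zero]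
  have hk : ringChar F ≠ 2 := by
    intro h
    apply h2
    have := ringChar.Nat.cast_ringChar (R := F)
    rw [h] at this
    exact_mod_cast this
  rw [A_two_eq]
  refine sum_NN hk _ _ fun β hβ hd => ?_
  have hβ' : β ^ 3 = 27 * c * β + 54 * c' := by linear_combination hβ
  -- `3β² = 108 c`, so `β² = 36 c`
  have h4 : β ^ 2 = 36 * c := by
    apply mul_left_cancel₀ h3
    linear_combination (-1) * hd
  have h5 : c * β = 6 * c' := by
    have h9 : (9 : F) ≠ 0 := by
      have : (9 : F) = 3 * 3 := by norm_num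
      rw [this]; exact mul_ne_zero h3 h3
    apply mul_left_cancel₀ h9
    linear_combination hβ' - β * h4
  apply h
  have h7 : (36 : F) ≠ 0 := by
    have : (36 : F) = 6 * 6 := by norm_num
    rw [this]; exact mul_ne_zero h6 h6
  apply mul_left_cancel₀ h7
  rw [mul_zero]
  linear_combination (-c ^ 2) * h4 + (c * β + 6 * c') * h5

/-- the relation of the point counts over the quadratic extension -/
theorem T_two (h6 : (6 : F) ≠ 0) {c c' : F} (h : c ^ 3 - c' ^ 2 ≠ 0) :
    T (cub c c') 2 = 2 * (Fintype.card F : ℤ) - T (cub c c') 1 ^ 2 := by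
  have h1 := n_mul_A (cub c c') 1
  have h2 := n_mul_A (cub c c') 2
  have e1 : Icc 1 1 = ({1} : Finset ℕ) := rfl
  have e2 : Icc 1 2 = ({1, 2} : Finset ℕ) := rfl
  rw [e1, sum_singleton, Nat.sub_self, A_zero] at h1
  rw [e2, sum_pair (by norm_num), Nat.sub_self, A_zero, A_two h6 h] at h2
  norm_num at h1 h2
  rw [h1] at h2
  linear_combination (-1) * h2

end

end Pool.Agent.N655.H2
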