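import Pool.Agent.N655.H2.Res
import Pool.Agent.R433.MD.Exist

/-! Splitting of primes in a quadratic extension. -/

set_option autoImplicit false

namespace Pool.Agent.N655.H2

open Polynomial Finset NumberField IsDedekindDomain IntermediateField
open Pool.Agent.H921R2.TatePole (nm two_le_nm)
open Pool.Agent.H341R2.Sharp
open Pool.Agent.H341R2.EC
open Pool.Agent.H341R2 (finite_v card_v chi)
open Pool.Agent.R433.MD

section
variable {K F : Type} [Field K] [NumberField K] [Field F] [NumberField F] [Algebra K F]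

/-- the power basis of a quadratic extension -/
theorem nh_quad (h2 : Module.finrank K F = 2) {c : 𝓞 K} (hc : ¬ IsSquare (c : K)) {x : F}
    (hx : x ^ 2 = algebraMap K F (c : K)) :
    ∃ D : 𝓞 K, D ≠ 0 ∧ ∀ (k : Type) [Field k] [Finite k] (φ : 𝓞 K →+* k), φ D ≠ 0 →
      nh F φ = rc 2 (φ c) := by
  have hirr : Irreducible (X ^ 2 - C (c : K)) := by
    apply X_pow_sub_C_irreducible_of_prime Nat.prime_two
    intro b hb
    exact hc ⟨b, by rw [← hb, sq]⟩
  have hmin : minpoly K x = X ^ 2 - C (c : K) := by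
    refine (minpoly.eq_of_irreducible_of_monic hirr ?_ (monic_X_pow_sub_C _ two_ne_zero)).symm
    rw [map_sub, map_pow, aeval_X, aeval_C, sub_eq_zero]
    exact hx
  have hfin : FiniteDimensional K F := Module.finite_of_finrank_pos (by omega)
  have htop : K⟮x⟯ = ⊤ := by
    rw [Field.primitive_element_iff_minpoly_natDegree_eq, hmin, natDegree_X_pow_sub_C, h2]
  have hxi : IsIntegral K x := Algebra.IsIntegral.isIntegral x
  let B : PowerBasis K F := (adjoin.powerBasis hxi).map
    ((IntermediateField.equivOfEq htop).trans IntermediateField.topEquiv)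
  have hB : B.gen = x := rfl
  have hint : IsIntegral ℤ x := by
    apply IsIntegral.of_pow (n := 2) (by norm_num)
    rw [hx]
    exact (RingOfIntegers.isIntegral_coe c).map (algebraMap K F).toIntAlgHom
  let α : 𝓞 F := ⟨x, hint⟩
  obtain ⟨D, hD0, hD⟩ := nh_pure (K := K) (F := F) B (α := α) (p := 2) (a := c) (by rw [hB]; rfl) (by
    have h1 := minpoly.isIntegrallyClosed_eq_field_fractions K F (integral_over (K := K) α)
    have h2 : minpoly K (algebraMap (𝓞 F) F α) = X ^ 2 - C (c : K) := hmin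
    apply Polynomial.map_injective (algebraMap (𝓞 K) K) (RingOfIntegers.coe_injective (K := K))
    rw [← h1, h2, Polynomial.map_sub, Polynomial.map_pow, map_X, map_C])
  exact ⟨D, hD0, fun k _ _ φ hφ => (hD k φ hφ).2⟩

/-- square roots in an extension of finite fields -/
theorem rc_ext {k l : Type} [Field k] [Fintype k] [DecidableEq k] [Field l] [Finite l] [Algebra k l]
    (hk : ringChar k ≠ 2) (a : k) :
    (rc 2 (algebraMap k l a) : ℤ) = 1 + quadraticChar k a ^ Module.finrank k l := by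
  classical
  have : Fintype l := Fintype.ofFinite l
  have hl : ringChar l ≠ 2 := by rwa [← Algebra.ringChar_eq k l]
  have h1 := qc_norm (F := k) (E := l) hk (algebraMap k l a)
  rw [Algebra.norm_algebraMap, map_pow] at h1
  rw [← h1, add_comm, ← quadraticChar_card_sqrts hl]
  unfold rc
  rw [Nat.card_eq_fintype_card, Set.toFinset_card]
  congr 1

/-- the splitting law -/
theorem split_sum (h2 : Module.finrank K F = 2) {c : 𝓞 K} (hc : ¬ IsSquare (c : K)) {x : F}
    (hx : x ^ 2 = algebraMap K F (c : K)) :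
    ∃ D : 𝓞 K, D ≠ 0 ∧ ∀ v : HeightOneSpectrum (𝓞 K), D ∉ v.asIdeal → (6 : 𝓞 K) ∉ v.asIdeal →
      ∀ m : ℕ, 0 < m →
      ((∑ w : Fib F v, if fdeg w ∣ m then fdeg w else 0 : ℕ) : ℤ) = 1 + chi c v ^ m := by
  obtain ⟨D, hD0, hD⟩ := nh_quad h2 hc hx
  refine ⟨D, hD0, fun v hvD hv6 m hm => ?_⟩
  obtain ⟨k, iF, iFin, iA, hk⟩ := exists_ext (𝓞 K ⧸ v.asIdeal) hm
  have h1 := hD k (base v k) (by
    rw [base, RingHom.comp_apply]
    intro h
    rw [map_eq_zero_iff _ (algebraMap (𝓞 K ⧸ v.asIdeal) k).injective,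
      Ideal.Quotient.eq_zero_iff_mem] at h
    exact hvD h)
  simp only [nh_eq, hk] at h1
  rw [h1, base, RingHom.comp_apply]
  have h6' : (6 : 𝓞 K ⧸ v.asIdeal) ≠ 0 := by
    have := mk_ne hv6
    rwa [map_ofNat] at this
  have hch : ringChar (𝓞 K ⧸ v.asIdeal) ≠ 2 := by
    intro h
    apply h6'
    have h3 := ringChar.Nat.cast_ringChar (R := 𝓞 K ⧸ v.asIdeal)
    rw [h] at h3
    have h4 : (6 : 𝓞 K ⧸ v.asIdeal) = 3 * ((2 : ℕ) : 𝓞 K ⧸ v.asIdeal) := by norm_num
    rw [h4, h3, mul_zero]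
  rw [rc_ext hch, hk]
  rfl

end

end Pool.Agent.N655.H2
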